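import Pool.Agent.H84.SL.Targets

/-!
# MP_70ba79_ag, board `slg_modules`, DRP: the spaces `L(E)` are finite-dimensional and drop by at most one
-/

set_option autoImplicit false

namespace Pool.Agent.H35.SL

open SC Pool.Agent.H27.LV Pool.Agent.H84.SM Pool.Agent.H84.SL

section

variable {k K : Type} [Field k] [Field K] [Algebra k K]

theorem mem_LE {E : DV k K → ℤ} {z : K} : z ∈ LE k E ↔ ∀ v : DV k K, ge v (-(E v)) z := Iff.rfl

theorem LE_mono {E E' : DV k K → ℤ} (h : ∀ v, E v ≤ E' v) : LE k E ≤ LE k E' := by
  intro z hz v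
  exact (hz v).mono (by have := h v; omega)

end

/-- a function without poles is constant -/
theorem const_of {k K : Type} [Field k] [IsAlgClosed k] [CharZero k] [Field K] [Algebra k K]
    [Algebra.EssFiniteType k K] (htr : Algebra.trdeg k K = 1) {z : K}
    (hz : ∀ v : DV k K, ge v 0 z) : ∃ c : k, algebraMap k K c = z := by
  by_contra hcon
  have hzt : Transcendental k z := by
    intro halg
    apply hcon
    have hint : IsIntegral k z := halg.isIntegral
    have h1 : (minpoly k z).degree = 1 := IsAlgClosed.degree_eq_one_of_irreducible k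
      (minpoly.irreducible hint)
    obtain ⟨c, hc⟩ := minpoly.mem_range_of_degree_eq_one k z h1
    exact ⟨c, hc⟩
  have hz0 : z ≠ 0 := fun h => hcon ⟨0, by rw [h, map_zero]⟩
  have hfd := Pool.Agent.H36.SC.fin_of_transc htr hzt
  obtain ⟨-, -, h5c⟩ := Pool.Agent.H76.KN.v5 k K z hzt hfd
  have h0 : ∀ v : DV k K, (v.deg : ℤ) * max 0 (- v.ord z) = 0 := by
    intro v
    have h1 : 0 ≤ v.ord z := (hz v).resolve_left hz0
    rw [max_eq_left (by omega), mul_zero]
  rw [finsum_congr h0, finsum_zero] at h5c
  have h2 : 0 < Module.finrank (IntermediateField.adjoin k {z}) K := Module.finrank_pos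
  omega

/-- one step -/
theorem step {k K : Type} [Field k] [IsAlgClosed k] [CharZero k] [Field K] [Algebra k K]
    [Algebra.EssFiniteType k K] (htr : Algebra.trdeg k K = 1) (E E' : DV k K → ℤ) (v : DV k K)
    (hv : E' v = E v - 1) (hw : ∀ w, w ≠ v → E' w = E w) :
    ∃ z : K, LE k E ≤ LE k E' ⊔ Submodule.span k {z} := by
  by_cases hall : ∀ z ∈ LE k E, ge v (-(E v) + 1) z
  · refine ⟨0, fun z hz => Submodule.mem_sup_left ?_⟩
    intro w
    by_cases h : w = v
    · rw [h, hv]
      exact (hall z hz).mono (by omega)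
    · rw [hw w h]
      exact hz w
  · push Not at hall
    obtain ⟨z₁, hz₁, hn⟩ := hall
    have hz0 : z₁ ≠ 0 := fun h => hn (Or.inl h)
    have h1 : -(E v) ≤ v.ord z₁ := (hz₁ v).resolve_left hz0
    have h2 : ¬ (-(E v) + 1 ≤ v.ord z₁) := fun h => hn (Or.inr h)
    have hord : v.ord z₁ = -(E v) := by omega
    refine ⟨z₁, fun z hz => ?_⟩
    obtain ⟨c, hc⟩ : ∃ c : k, ge v (-(E v) + 1) (z - algebraMap k K c * z₁) := by
      by_cases hzz : z = 0
      · refine ⟨0, ?_⟩
        rw [hzz, map_zero, zero_mul, sub_zero]
        exact ge_zero v _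
      · have h3 : -(E v) ≤ v.ord z := (hz v).resolve_left hzz
        have h4 : 0 ≤ v.ord (z / z₁) := by
          rw [v.ord_div hzz hz0]
          omega
        obtain ⟨c, hc⟩ := (rat k K htr v).2 (z / z₁) h4
        refine ⟨c, ?_⟩
        have h5 : z - algebraMap k K c * z₁ = z₁ * (z / z₁ - algebraMap k K c) := by
          field_simp
        rw [h5]
        exact (show ge v (-(E v)) z₁ from Or.inr h1).mul hc
    have h6 : z = (z - algebraMap k K c * z₁) + c • z₁ := by
      rw [Algebra.smul_def]
      ring
    rw [h6]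
    refine Submodule.add_mem_sup ?_ (Submodule.smul_mem _ _ (Submodule.mem_span_singleton_self _))
    intro w
    by_cases h : w = v
    · rw [h, hv]
      exact hc.mono (by omega)
    · rw [hw w h]
      have h7 : z - algebraMap k K c * z₁ ∈ LE k E := by
        rw [← Algebra.smul_def]
        exact (LE k E).sub_mem hz ((LE k E).smul_mem c hz₁)
      exact h7 w

theorem fin_step {k K : Type} [Field k] [IsAlgClosed k] [CharZero k] [Field K] [Algebra k K]
    [Algebra.EssFiniteType k K] (htr : Algebra.trdeg k K = 1) (E E' : DV k K → ℤ) (v : DV k K)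
    (hv : E' v = E v - 1) (hw : ∀ w, w ≠ v → E' w = E w) (hfin : Module.Finite k (LE k E')) :
    Module.Finite k (LE k E) := by
  obtain ⟨z, hz⟩ := step htr E E' v hv hw
  exact Submodule.finiteDimensional_of_le hz

theorem fin_zero {k K : Type} [Field k] [IsAlgClosed k] [CharZero k] [Field K] [Algebra k K]
    [Algebra.EssFiniteType k K] (htr : Algebra.trdeg k K = 1) (E : DV k K → ℤ)
    (hE : ∀ v, E v = 0) : Module.Finite k (LE k E) := by
  have h1 : LE k E ≤ Submodule.span k {(1 : K)} := by
    intro z hz
    obtain ⟨c, hc⟩ := const_of htr (z := z) (fun v => by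
      have := hz v
      rwa [hE v, neg_zero] at this)
    rw [Submodule.mem_span_singleton]
    exact ⟨c, by rw [Algebra.smul_def, mul_one, hc]⟩
  exact Submodule.finiteDimensional_of_le h1

theorem fin_nonneg {k K : Type} [Field k] [IsAlgClosed k] [CharZero k] [Field K] [Algebra k K]
    [Algebra.EssFiniteType k K] (htr : Algebra.trdeg k K = 1) (S : Finset (DV k K)) :
    ∀ (n : ℕ) (E : DV k K → ℤ), (∀ v, 0 ≤ E v) → (∀ v, v ∉ S → E v = 0) →
      ∑ v ∈ S, (E v).toNat = n → Module.Finite k (LE k E) := by
  classical
  intro n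
  induction n with
  | zero =>
    intro E h0 hS hs
    refine fin_zero htr E fun v => ?_
    by_cases hv : v ∈ S
    · have h1 := (Finset.sum_eq_zero_iff.1 hs) v hv
      have h2 := h0 v
      omega
    · exact hS v hv
  | succ n ih =>
    intro E h0 hS hs
    obtain ⟨v, hv, hv0⟩ : ∃ v ∈ S, (E v).toNat ≠ 0 := by
      by_contra hcon
      push Not at hcon
      rw [Finset.sum_eq_zero hcon] at hs
      omega
    have hvp : 0 < E v := by omega
    refine fin_step htr E (Function.update E v (E v - 1)) v (Function.update_self _ _ _)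
      (fun w hw => Function.update_of_ne hw _ _) (ih _ ?_ ?_ ?_)
    · intro w
      by_cases h : w = v
      · rw [h, Function.update_self]
        omega
      · rw [Function.update_of_ne h]
        exact h0 w
    · intro w hw
      have hne : w ≠ v := fun h => hw (h.symm ▸ hv)
      rw [Function.update_of_ne hne]
      exact hS w hw
    · rw [← Finset.add_sum_erase _ _ hv] at hs ⊢
      have h3 : ∑ x ∈ S.erase v, (Function.update E v (E v - 1) x).toNat =
          ∑ x ∈ S.erase v, (E x).toNat := by
        refine Finset.sum_congr rfl fun x hx => ?_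
        rw [Function.update_of_ne (Finset.ne_of_mem_erase hx)]
      rw [h3, Function.update_self]
      omega

theorem fin_LE {k K : Type} [Field k] [IsAlgClosed k] [CharZero k] [Field K] [Algebra k K]
    [Algebra.EssFiniteType k K] (htr : Algebra.trdeg k K = 1) (E : DV k K → ℤ)
    (hE : {v | E v ≠ 0}.Finite) : Module.Finite k (LE k E) := by
  have h1 := fin_nonneg htr hE.toFinset _ (fun v => max (E v) 0) (fun v => le_max_right _ _)
    (fun v hv => by
      have : E v = 0 := by
        by_contra h
        exact hv (hE.mem_toFinset.2 h)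
      rw [this, max_self]) rfl
  exact Submodule.finiteDimensional_of_le (LE_mono (fun v => le_max_left (E v) 0))

theorem pf_DRP : T_DRP := by
  intro k K _ _ _ _ _ _ htr E hE
  refine ⟨fin_LE htr E hE, fun v E' hv hw => ?_⟩
  obtain ⟨z, hz⟩ := step htr E E' v hv hw
  have hE' : {v | E' v ≠ 0}.Finite := by
    refine (hE.union (Set.finite_singleton v)).subset ?_
    intro w hw'
    by_cases h : w = v
    · exact Or.inr h
    · left
      rw [Set.mem_ofPred_eq] at hw' ⊢
      rwa [hw w h] at hw'
  have h1 : Module.Finite k (LE k E') := fin_LE htr E' hE'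
  have h2 := Submodule.finrank_mono hz
  have h3 := Submodule.finrank_add_le_finrank_add_finrank (LE k E') (Submodule.span k {z})
  have h4 : Module.finrank k (Submodule.span k {z}) ≤ 1 := by
    have h5 := finrank_span_le_card (R := k) ({z} : Set K)
    simpa using h5
  omega

end Pool.Agent.H35.SL
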